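import Pool.Agent.X8.BalDig2

/-!
The sharper algebraic-connectivity inequality for balanced digraphs fails: a balanced digraph of
order 10.  Its arcs are the directed 4-cycle `0 → 1 → 2 → 3 → 0` and pairs of opposite arcs between
`0` and `2`, between `0` and each of `4,…,9`, and between `3` and each of `4,…,9`.
(Numerically `α(Γ) = α(Γ̄) = 0.8636…`; upper bounds `74/85` come from integer test vectors.)
-/

namespace Pool.Agent.Results.MP_2c58b6_co.TenVertexDigraph

open Pool.Agent.X8.BD

/-- There is a balanced digraph `E` on 10 vertices with `x = α(E) ≤ 1`, `y = α(Ē) ≤ 1` and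
`xy(2-xy) < 10(1-x)(1-y)(10-2-x-y)`; hence the conjectured inequality is false. -/
theorem result :
    (∃ E : Fin 10 → Fin 10 → Bool, Loopless E ∧ Balanced E ∧
      alpha E ≤ 1 ∧ alpha (complDig E) ≤ 1 ∧
      alpha E * alpha (complDig E) * (2 - alpha E * alpha (complDig E)) <
        10 * (1 - alpha E) * (1 - alpha (complDig E)) *
          (10 - 2 - alpha E - alpha (complDig E))) ∧
    ¬ (∀ (n : ℕ) (E : Fin n → Fin n → Bool), 2 ≤ n → Loopless E → Balanced E →
        alpha E ≤ 1 → alpha (complDig E) ≤ 1 →
        (n : ℝ) * (1 - alpha E) * (1 - alpha (complDig E)) *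
            ((n : ℝ) - 2 - alpha E - alpha (complDig E))
          ≤ alpha E * alpha (complDig E) * (2 - alpha E * alpha (complDig E))) := by
  obtain ⟨h1, h2, -, h3, -, h4, h5⟩ := main
  refine ⟨⟨G10, h1, h2, by linarith, by linarith, h5⟩, fun H => ?_⟩
  have := H 10 G10 (by norm_num) h1 h2 (by linarith) (by linarith)
  push_cast at this
  linarith

end Pool.Agent.Results.MP_2c58b6_co.TenVertexDigraph
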